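import Mathlib

set_option autoImplicit false

namespace Pool.Agent.Results.MP_79deac_al.BethOmega

open Set Topology Cardinal Filter

/-- the Zariski topology: the solution sets of `n • x = g` form a subbase of closed sets -/
@[reducible] def zariski (G : Type) [AddCommGroup G] : TopologicalSpace G :=
  TopologicalSpace.generateFrom {U | ∃ (n : ℤ) (g : G), U = {x | n • x = g}ᶜ}

/-- `U` is open in the cofinite topology -/
def CofOpen {G : Type} (U : Set G) : Prop := U = ∅ ∨ Uᶜ.Finite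

lemma card_closure {X : Type} [TopologicalSpace X] [T2Space X] (A : Set X) :
    #(closure A) ≤ (2 : Cardinal) ^ ((2 : Cardinal) ^ #A) := by
  rw [← mk_set, ← mk_set]
  refine mk_le_of_injective (f := fun x : closure A => (comap (Subtype.val : A → X) (𝓝 x.1)).sets)
    fun x y h => ?_
  have h1 : comap (Subtype.val : A → X) (𝓝 x.1) = comap Subtype.val (𝓝 y.1) := Filter.filter_eq h
  by_contra hne
  have h2 := disjoint_nhds_nhds.2 (fun h => hne (Subtype.ext h) : x.1 ≠ y.1)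
  have h3 : (comap (Subtype.val : A → X) (𝓝 x.1)).NeBot := mem_closure_iff_comap_neBot.1 x.2
  have h4 := disjoint_comap (m := (Subtype.val : A → X)) h2
  rw [← h1, disjoint_self] at h4
  exact h3.ne h4

lemma shrink {X : Type} [TopologicalSpace X] [RegularSpace X] (W C : Set X) (hW : IsOpen W)
    (h : ¬ W ⊆ closure C) : ∃ W', IsOpen W' ∧ W'.Nonempty ∧ W' ⊆ W ∧ Disjoint (closure W') C := by
  obtain ⟨x, hx, hx'⟩ := not_subset.1 h
  obtain ⟨t, ht, hc, hs⟩ := exists_mem_nhds_isClosed_subset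
    ((hW.inter isClosed_closure.isOpen_compl).mem_nhds ⟨hx, hx'⟩)
  refine ⟨interior t, isOpen_interior, ⟨x, mem_interior_iff_mem_nhds.2 ht⟩,
    fun y hy => (hs (interior_subset hy)).1, disjoint_left.2 fun y hy hC => ?_⟩
  exact (hs (closure_minimal interior_subset hc hy)).2 (subset_closure hC)

lemma chain {X : Type} [TopologicalSpace X] [RegularSpace X] (C : ℕ → Set X)
    (h : ∀ n W, IsOpen W → W.Nonempty → ¬ W ⊆ closure (C n)) [Nonempty X] :
    ∃ U : ℕ → Set X, Antitone U ∧ ∀ n, IsOpen (U n) ∧ (U n).Nonempty ∧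
      Disjoint (closure (U (n + 1))) (C n) := by
  have h' : ∀ n (W : {W : Set X // IsOpen W ∧ W.Nonempty}),
      ∃ W' : {W : Set X // IsOpen W ∧ W.Nonempty}, W'.1 ⊆ W.1 ∧ Disjoint (closure W'.1) (C n) := by
    intro n W
    obtain ⟨W', a, b, c, d⟩ := shrink W.1 (C n) W.2.1 (h n _ W.2.1 W.2.2)
    exact ⟨⟨W', a, b⟩, c, d⟩
  choose f hf1 hf2 using h'
  let U : ℕ → {W : Set X // IsOpen W ∧ W.Nonempty} := fun n =>
    Nat.rec ⟨univ, isOpen_univ, univ_nonempty⟩ (fun n W => f n W) n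
  exact ⟨fun n => (U n).1, antitone_nat_of_succ_le fun n => hf1 n _,
    fun n => ⟨(U n).2.1, (U n).2.2, hf2 n _⟩⟩

lemma closed_seq {X : Type} [TopologicalSpace X] [T1Space X] (C U : ℕ → Set X)
    (hC : ∀ x, ∃ n, x ∈ C n) (hU : Antitone U) (hd : ∀ n, Disjoint (closure (U (n + 1))) (C n))
    (d : ℕ → X) (h : ∀ n, d n ∈ U n) : IsClosed (range d) := by
  rw [← closure_subset_iff_isClosed]
  intro x hx
  obtain ⟨m, hm⟩ := hC x
  have : range d ⊆ d '' Iic m ∪ U (m + 1) := by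
    rintro _ ⟨n, rfl⟩
    by_cases hn : n ≤ m
    · exact Or.inl ⟨n, hn, rfl⟩
    · exact Or.inr (hU (by omega : m + 1 ≤ n) (h n))
  have h1 := closure_mono this hx
  rw [closure_union, ((finite_Iic m).image d).isClosed.closure_eq] at h1
  rcases h1 with h1 | h1
  · exact image_subset_range _ _ h1
  · exact absurd hm (disjoint_left.1 (hd m) h1)

lemma half {G : Type} [AddCommGroup G] [TopologicalSpace G] [IsTopologicalAddGroup G]
    (U : Set G) (hU : IsOpen U) (u : G) (hu : u ∈ U) :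
    ∃ V, IsOpen V ∧ (0 : G) ∈ V ∧ (∀ a ∈ V, ∀ b ∈ V, u + (a + b) ∈ U) ∧
      ∀ S : Set G, IsOpen {x | ∃ a ∈ V, ∃ b ∈ S, x = a - b} ∧
        IsOpen {x | ∃ a ∈ S, ∃ b ∈ V, x = a - b} := by
  have h1 : (fun x => u + x) ⁻¹' U ∈ 𝓝 (0 : G) :=
    (hU.preimage (continuous_const_add u)).mem_nhds (by simpa using hu)
  obtain ⟨V, h2, h3, h4⟩ := exists_open_nhds_zero_half h1
  refine ⟨V, h2, h3, fun a ha b hb => h4 a ha b hb, fun S => ⟨?_, ?_⟩⟩
  · convert h2.sub_right (t := S) using 1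
    ext x; simp [Set.mem_sub, eq_comm]
  · convert h2.sub_left (s := S) using 1
    ext x; simp [Set.mem_sub, eq_comm]

lemma meet {G : Type} [AddCommGroup G] [Infinite G] (τ₁ τ₂ : TopologicalSpace G)
    (g₁ : @IsTopologicalAddGroup G τ₁ _) (g₂ : @IsTopologicalAddGroup G τ₂ _)
    (h : ∀ U, IsOpen[τ₁] U → IsOpen[τ₂] U → CofOpen U) (U V : Set G) (hU : IsOpen[τ₁] U)
    (hV : IsOpen[τ₂] V) (u : G) (hu : u ∈ U) (v : G) (hv : v ∈ V) : (U ∩ V).Nonempty := by
  obtain ⟨A, -, a0, a1, a2⟩ := @half G _ τ₁ g₁ U hU u hu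
  obtain ⟨B, -, b0, b1, b2⟩ := @half G _ τ₂ g₂ V hV v hv
  have hf := (h _ (a2 B).1 (b2 A).2).resolve_left
    (Nonempty.ne_empty ⟨0, 0, a0, 0, b0, by simp⟩)
  have hf2 := hf.preimage (f := fun x => v - u - x) (sub_right_injective.injOn)
  obtain ⟨x, hx⟩ := (hf.union hf2).infinite_compl.nonempty
  simp only [mem_compl_iff, mem_union, mem_preimage, not_or, not_not] at hx
  obtain ⟨⟨a, ha, b, hb, e1⟩, a', ha', b', hb', e2⟩ := hx
  refine ⟨u + (a + a'), a1 a ha a' ha', ?_⟩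
  have : u + (a + a') = v + (b + b') := by
    rw [e1] at e2
    rw [← sub_eq_zero, ← neg_eq_zero, ← sub_eq_zero.2 e2]; abel
  rw [this]; exact b1 b hb b' hb'

theorem result : ∃ (G : Type) (_ : AddCommGroup G), Uncountable G ∧
    (∀ U, IsOpen[zariski G] U ↔ CofOpen U) ∧
    ¬ ∃ τ₁ τ₂ : TopologicalSpace G, @IsTopologicalAddGroup G τ₁ _ ∧ @T2Space G τ₁ ∧
      @IsTopologicalAddGroup G τ₂ _ ∧ @T2Space G τ₂ ∧
      ∀ U, (IsOpen[τ₁] U ∧ IsOpen[τ₂] U) ↔ CofOpen U := by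
  let ι : Type := Σ n : ℕ, (beth n).out
  have hι : ∀ n : ℕ, beth n ≤ #ι := fun n => by
    rw [← mk_out (beth n)]; exact mk_le_of_injective (sigma_mk_injective (β := fun n : ℕ => (beth n).out) (i := n))
  have : Infinite ι := infinite_iff.2 ((aleph0_le_beth _).trans (hι 0))
  have hG : #(ι →₀ ℤ) = #ι := by simp
  have hs : ∀ n : ℕ, 2 ^ beth n = beth (n + 1 : ℕ) := fun n => by
    rw [Nat.cast_succ, beth_add_one]
  have hlt : ∀ n : ℕ, beth n < #(ι →₀ ℤ) := fun n =>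
    (beth_strictMono (by exact_mod_cast n.lt_succ_self)).trans_le (hG ▸ hι (n + 1))
  have hu : Uncountable (ι →₀ ℤ) := aleph0_lt_mk_iff.1 ((aleph0_le_beth _).trans_lt (hlt 0))
  refine ⟨ι →₀ ℤ, inferInstance, hu, fun U => ⟨fun h => ?_, fun h => ?_⟩, ?_⟩
  · induction h with
    | basic U hU =>
      obtain ⟨n, g, rfl⟩ := hU
      by_cases hn : n = 0
      · by_cases hg : g = 0
        · exact Or.inl (by ext x; simp [hn, hg])
        · exact Or.inr (by simp [hn, Ne.symm hg])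
      · refine Or.inr (Set.Subsingleton.finite fun x hx y hy => ?_)
        simp only [compl_compl, mem_ofPred_eq] at hx hy
        exact smul_right_injective _ hn (hx.trans hy.symm)
    | univ => exact Or.inr (by simp)
    | inter s t _ _ hs ht =>
      rcases hs with rfl | hs
      · exact Or.inl (by simp)
      rcases ht with rfl | ht
      · exact Or.inl (by simp)
      exact Or.inr (by rw [compl_inter]; exact hs.union ht)
    | sUnion S _ hS =>
      by_cases h : ∀ s ∈ S, s = ∅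
      · exact Or.inl (sUnion_eq_empty.2 h)
      · push Not at h
        obtain ⟨s, h1, h2⟩ := h
        exact Or.inr (((hS s h1).resolve_left h2.ne_empty).subset
          (compl_subset_compl.2 (subset_sUnion_of_mem h1)))
  · let _ := zariski (ι →₀ ℤ)
    have : T1Space (ι →₀ ℤ) := ⟨fun g => ⟨TopologicalSpace.GenerateOpen.basic _
      ⟨1, g, by ext x; simp⟩⟩⟩
    rcases h with rfl | h
    · exact isOpen_empty
    · exact isClosed_compl_iff.1 h.isClosed
  rintro ⟨τ₁, τ₂, g₁, t₁, g₂, t₂, h⟩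
  obtain ⟨e⟩ := Cardinal.eq.1 hG
  let C : ℕ → Set (ι →₀ ℤ) := fun n => {x | (e x).1 = n}
  have hC : ∀ n, #(C n) ≤ beth n := fun n => by
    rw [← mk_out (beth n)]
    refine mk_le_of_surjective (f := fun y : (beth n).out => (⟨e.symm ⟨n, y⟩, by simp [C]⟩ : C n))
      fun ⟨x, hx⟩ => ?_
    obtain ⟨⟨m, y⟩, rfl⟩ := e.symm.surjective x
    obtain rfl : m = n := by simpa [C] using hx
    exact ⟨y, rfl⟩
  have big : ∀ σ₁ σ₂ : TopologicalSpace (ι →₀ ℤ), @T2Space _ σ₁ → @T2Space _ σ₂ →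
      (∀ U V, IsOpen[σ₁] U → IsOpen[σ₂] V → U.Nonempty → V.Nonempty → (U ∩ V).Nonempty) →
      ∀ n W, IsOpen[σ₁] W → W.Nonempty → ¬ W ⊆ @closure _ σ₁ (C n) := by
    intro σ₁ σ₂ s₁ s₂ hm n W hW hW' hsub
    have h1 : #W ≤ beth (n + 1 + 1 : ℕ) := by
      refine (mk_le_mk_of_subset hsub).trans ((@card_closure _ σ₁ s₁ _).trans ?_)
      rw [← hs, ← hs]
      exact power_le_power_left two_ne_zero (power_le_power_left two_ne_zero (hC n))
    have h2 : @closure _ σ₂ W = Set.univ := by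
      rw [← @dense_iff_closure_eq _ σ₂, @dense_iff_inter_open _ σ₂]
      intro V hV hV'
      rw [inter_comm]; exact hm W V hW hV hW' hV'
    have h3 := @card_closure _ σ₂ s₂ W
    rw [h2, mk_univ] at h3
    refine absurd (hlt (n + 1 + 1 + 1 + 1)) (not_lt.2 (h3.trans ?_))
    rw [← hs, ← hs]
    exact power_le_power_left two_ne_zero (power_le_power_left two_ne_zero h1)
  have hm : ∀ U V, IsOpen[τ₁] U → IsOpen[τ₂] V → U.Nonempty → V.Nonempty → (U ∩ V).Nonempty :=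
    fun U V hU hV ⟨u, hu⟩ ⟨v, hv⟩ =>
      meet τ₁ τ₂ g₁ g₂ (fun U a b => (h U).1 ⟨a, b⟩) U V hU hV u hu v hv
  obtain ⟨U, U1, U2⟩ := @chain _ τ₁ (@IsTopologicalAddGroup.regularSpace _ τ₁ _ g₁) C
    (big τ₁ τ₂ t₁ t₂ hm) _
  obtain ⟨V, V1, V2⟩ := @chain _ τ₂ (@IsTopologicalAddGroup.regularSpace _ τ₂ _ g₂) C
    (big τ₂ τ₁ t₂ t₁ fun U V a b c d => inter_comm U V ▸ hm V U b a d c) _
  choose d hd using fun n => hm (U n) (V n) (U2 n).1 (V2 n).1 (U2 n).2.1 (V2 n).2.1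
  have c1 := @closed_seq _ τ₁ (@T2Space.t1Space _ τ₁ t₁) C U (fun x => ⟨_, rfl⟩) U1
    (fun n => (U2 n).2.2) d fun n => (hd n).1
  have c2 := @closed_seq _ τ₂ (@T2Space.t1Space _ τ₂ t₂) C V (fun x => ⟨_, rfl⟩) V1
    (fun n => (V2 n).2.2) d fun n => (hd n).2
  rcases (h _).1 ⟨@IsClosed.isOpen_compl _ τ₁ _ c1, @IsClosed.isOpen_compl _ τ₂ _ c2⟩ with h1 | h1
  · exact not_countable_univ (compl_empty_iff.1 h1 ▸ countable_range d)
  · rw [compl_compl] at h1
    obtain ⟨m, hm⟩ := (h1.image fun x => (e x).1).bddAbove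
    have h2 : (e (d (m + 1))).1 + 1 ≤ m + 1 := Nat.succ_le_succ (hm ⟨_, ⟨_, rfl⟩, rfl⟩)
    exact disjoint_left.1 (U2 _).2.2 (@subset_closure _ τ₁ _ _ (U1 h2 (hd (m + 1)).1)) rfl

end Pool.Agent.Results.MP_79deac_al.BethOmega
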